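import Pool.Agent.Helper94.PF.Fin
import Pool.Agent.Helper88.PF.End

/-!
# The entropic polynomial Freiman-Ruzsa theorem in exponent two

For every law `p` on a finite group of exponent two there is a subgroup `H` with
`(log [G:H] - D_H) + (D - D_H) ≤ 22 (H(X + X') - H(X))`.
-/

set_option autoImplicit false

namespace Pool.Agent.Helper94.PF

open Finset Pool.Agent.Helper15.BP

variable {G : Type} [AddCommGroup G]

omit [AddCommGroup G] in
/-- families without side information -/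
theorem h_triv (M : Fam G) (hJ : ∀ o o', M.J o = M.J o') :
    Pool.Agent.Helper88.PF.h M = Ent M.w M.Y := by
  unfold Pool.Agent.Helper88.PF.h
  have e1 : Ent M.w (fun o => (M.J o, M.Y o)) = Ent M.w M.Y := by
    refine Ent_congr fun o o' => ?_
    simp only [Prod.mk.injEq]
    exact ⟨fun h => h.2, fun h => ⟨hJ o o', h⟩⟩
  have e2 : Ent M.w M.J = 0 := by
    rw [← Ent_const M.hw (0 : ℕ)]
    refine Ent_congr fun o o' => ?_
    exact ⟨fun _ => rfl, fun _ => hJ o o'⟩
  rw [e1, e2, sub_zero]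

theorem h_add_triv (X M : Fam G) (hX : ∀ o o', X.J o = X.J o') (hM : ∀ o o', M.J o = M.J o') :
    Pool.Agent.Helper88.PF.h (X.add M) = Ent (prodW X.w M.w) (fun z => X.Y z.1 + M.Y z.2) := by
  have h1 := h_triv (X.add M) (fun o o' => by
    simp only [Fam.add, Prod.mk.injEq]
    exact ⟨hX _ _, hM _ _⟩)
  rw [h1]
  rfl

/-- the one-law family -/
def ofLaw [Fintype G] (p : G → ℝ) (hp : IsPr p) : Fam G where
  Ω := G
  ι := Unit
  fin := inferInstance
  w := p
  hw := hp
  J := fun _ => ()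
  Y := fun x => x

theorem rho_self (X : Fam G) :
    Pool.Agent.Helper88.PF.rho X X = Pool.Agent.Helper88.PF.dd X := by
  unfold Pool.Agent.Helper88.PF.rho Pool.Agent.Helper88.PF.dd
  ring

theorem dd_ofLaw [Fintype G] (p : G → ℝ) (hp : IsPr p) :
    Pool.Agent.Helper88.PF.dd (ofLaw p hp) = dd p := by
  unfold Pool.Agent.Helper88.PF.dd
  rw [h_add_triv _ _ (fun _ _ => rfl) (fun _ _ => rfl), h_triv _ (fun _ _ => rfl)]
  unfold dd EL
  rw [Ent_conv]
  rfl

/-- **entropic PFR**, exponent two -/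
theorem pfr_law [Fintype G] (h2 : ∀ x : G, x + x = 0) (p : G → ℝ) (hp : IsPr p) :
    ∃ H : AddSubgroup G, Real.log H.index - DL p H ≤ 11 * dd p ∧
      DL p ⊥ - DL p H ≤ 11 * dd p := by
  set X := ofLaw p hp with hX
  set f : Fam G → ℝ := fun B => Pool.Agent.Helper88.PF.dd B +
    2 / 9 * Pool.Agent.Helper88.PF.rho X B with hf
  have hf0 : ∀ B, 0 ≤ f B := fun B => by
    have h1 := Pool.Agent.Helper88.PF.dd_nonneg B
    have h3 := Pool.Agent.Helper88.PF.rho_nonneg X B
    simp only [hf]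
    positivity
  have hne : (Set.range f).Nonempty := ⟨f X, X, rfl⟩
  have hbdd : BddBelow (Set.range f) := ⟨0, by
    rintro _ ⟨B, rfl⟩
    exact hf0 B⟩
  set t := sInf (Set.range f) with ht
  have hT : ∀ B, t ≤ f B := fun B => csInf_le hbdd ⟨B, rfl⟩
  have ht0 : 0 ≤ t := le_csInf hne (by
    rintro _ ⟨B, rfl⟩
    exact hf0 B)
  have htX : 9 / 2 * t ≤ 11 / 2 * dd p := by
    have h1 := hT X
    simp only [hf] at h1
    rw [rho_self, dd_ofLaw] at h1
    linarith
  have hlim : ∀ ε : ℝ, 0 < ε → ∃ (Ω' : Type) (_ : Fintype Ω') (w' : Ω' → ℝ) (X' : Ω' → G),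
      IsPr w' ∧
      Ent (prodW w' w') (fun z => X' z.1 + X' z.2) - Ent w' X' ≤ ε ∧
      Ent (prodW p w') (fun z => (fun x : G => x) z.1 + X' z.2) - Ent p (fun x => x) / 2 -
        Ent w' X' / 2 ≤ 11 / 2 * dd p + ε := by
    intro ε hε
    set M : ℝ := 9 / 2 * t + 135 with hM
    have hM0 : 0 < M := by positivity
    set s : ℝ := min 1 (ε / M) with hs
    have hs0 : 0 < s := lt_min one_pos (div_pos hε hM0)
    have hs1 : s ≤ 1 := min_le_left _ _
    have hs2 : s * M ≤ ε := by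
      have h1 : s ≤ ε / M := min_le_right _ _
      calc s * M ≤ ε / M * M := mul_le_mul_of_nonneg_right h1 hM0.le
        _ = ε := div_mul_cancel₀ _ hM0.ne'
    have hlt : t < t + s ^ 2 := by
      have : 0 < s ^ 2 := by positivity
      linarith
    obtain ⟨_, ⟨A, rfl⟩, hA⟩ := exists_lt_of_csInf_lt hne hlt
    obtain ⟨-, h3, h4⟩ := Pool.Agent.Helper88.PF.near_min h2 X A t (s ^ 2) hT hA.le
    set B := (A.fib A).add (A.fib A) with hB
    obtain ⟨o, ho, a1, a2⟩ := select B.hw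
      (fun o => Pool.Agent.Helper88.PF.dd (Pool.Agent.Helper88.PF.mem B o))
      (fun o => Pool.Agent.Helper88.PF.rho X (Pool.Agent.Helper88.PF.mem B o))
      (fun o _ => Pool.Agent.Helper88.PF.dd_nonneg _)
      (fun o _ => Pool.Agent.Helper88.PF.rho_nonneg _ _) hs0 h3 h4
    have hss : s ^ 2 ≤ s := by nlinarith
    set N := Pool.Agent.Helper88.PF.mem B o with hN
    have hNJ : ∀ o o', N.J o = N.J o' := fun _ _ => rfl
    have hXJ : ∀ o o', X.J o = X.J o' := fun _ _ => rfl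
    have e1 : Pool.Agent.Helper88.PF.dd N =
        Ent (prodW N.w N.w) (fun z => N.Y z.1 + N.Y z.2) - Ent N.w N.Y := by
      unfold Pool.Agent.Helper88.PF.dd
      rw [h_add_triv N N hNJ hNJ, h_triv N hNJ]
    have e2 : Pool.Agent.Helper88.PF.rho X N =
        Ent (prodW X.w N.w) (fun z => X.Y z.1 + N.Y z.2) - Ent X.w X.Y / 2 -
          Ent N.w N.Y / 2 := by
      unfold Pool.Agent.Helper88.PF.rho
      rw [h_add_triv X N hXJ hNJ, h_triv N hNJ, h_triv X hXJ]
    refine ⟨N.Ω, N.fin, N.w, N.Y, N.hw, ?_, ?_⟩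
    · rw [← e1]
      calc Pool.Agent.Helper88.PF.dd N ≤ s * (9 / 2 * t + 81 * s ^ 2 + 54 * s) := a1
        _ ≤ s * M := by
          refine mul_le_mul_of_nonneg_left ?_ hs0.le
          rw [hM]
          nlinarith
        _ ≤ ε := hs2
    · have e3 : Ent (prodW p N.w) (fun z => (fun x : G => x) z.1 + N.Y z.2) -
          Ent p (fun x => x) / 2 - Ent N.w N.Y / 2 = Pool.Agent.Helper88.PF.rho X N := by
        rw [e2]
        rfl
      rw [e3]
      have a3 : Pool.Agent.Helper88.PF.rho X N ≤ 9 / 2 * t + 81 * s ^ 2 + 54 * s := a2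
      have a4 : 81 * s ^ 2 + 54 * s ≤ s * M := by
        rw [hM]
        nlinarith [mul_nonneg hs0.le ht0]
      linarith
  obtain ⟨H, h3, h4⟩ := Pool.Agent.Helper5.PF.lim_final' hp (fun x : G => x) hlim
  refine ⟨H, ?_, ?_⟩
  · unfold DL
    linarith
  · rw [DL_bot]
    have h5 := log_index_bot_sub H
    unfold DL EL
    linarith

/-- entropic PFR in the form used by the recursion -/
theorem pfr : ∃ C : ℝ, 0 < C ∧ ∀ (G : Type) [AddCommGroup G] [Fintype G],
    (∀ x : G, x + x = 0) → ∀ p : G → ℝ, IsPr p → ∃ H : AddSubgroup G,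
      (Real.log H.index - DL p H) + (DL p ⊥ - DL p H) ≤ C * dd p := by
  refine ⟨22, by norm_num, fun G _ _ h2 p hp => ?_⟩
  obtain ⟨H, h3, h4⟩ := pfr_law h2 p hp
  exact ⟨H, by linarith⟩

end Pool.Agent.Helper94.PF
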