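import Pool.Agent.Helper94.PF.Sel
import Pool.Agent.Helper5.PF.Lim

/-!
# From near-minimisers to the subgroup

`laws_of_near`: a family whose members have small mean distance to each other and bounded mean
distance to `p` contains a good member.  `pfr_of_laws`: the limit.
-/

set_option autoImplicit false

namespace Pool.Agent.Helper94.PF

open Finset Pool.Agent.Helper15.BP Pool.Agent.Helper97.PF

variable {G : Type} [AddCommGroup G] [Fintype G]

theorem laws_of_near {p : G → ℝ} (hp : IsPr p) (K c₀ : ℝ) (hK : 0 ≤ K)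
    (hnear : ∀ δ : ℝ, 0 < δ → ∃ (Ω : Type) (_ : Fintype Ω) (γ : Type) (w : Ω → ℝ) (X : Ω → G)
      (U : Ω → γ), IsPr w ∧
      Ent (w2 w U) (fun z => (X z.1 + X z.2, U z.1)) - Ent w (fun o => (X o, U o)) ≤ K * δ ∧
      Ent (prodW p w) (fun z => (z.1 + X z.2, U z.2)) - Ent w U - EL p / 2 -
        (Ent w (fun o => (X o, U o)) - Ent w U) / 2 ≤ c₀ + K * δ)
    (ε : ℝ) (hε : 0 < ε) :
    ∃ q : G → ℝ, IsPr q ∧ dd q ≤ ε ∧ EL (conv p q) - EL p / 2 - EL q / 2 ≤ c₀ + ε := by
  classical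
  set M : ℝ := |c₀| + 2 * K + 1 with hM
  have hM0 : 0 < M := by positivity
  set t : ℝ := min 1 (ε / M) with ht
  have ht0 : 0 < t := lt_min one_pos (div_pos hε hM0)
  have ht1 : t ≤ 1 := min_le_left _ _
  have ht2 : t * M ≤ ε := by
    have h1 : t ≤ ε / M := min_le_right _ _
    calc t * M ≤ ε / M * M := mul_le_mul_of_nonneg_right h1 hM0.le
      _ = ε := div_mul_cancel₀ _ hM0.ne'
  obtain ⟨Ω, hΩ, γ, w, X, U, hw, h1, h2⟩ := hnear (t ^ 2) (by positivity)
  have hlaw : ∀ o, 0 < w o → IsPr (law w X U (U o)) := fun o ho =>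
    isPr_law hw X U (U o) (pr_pos hw U ho).ne'
  have e1 := avg_w2 hw X U
  have e2 := avg_add hp hw X U
  have e3 := avg_self hw X U
  have s1 : ∑ o, w o * dd (law w X U (U o)) ≤ K * t ^ 2 := by
    have : ∑ o, w o * dd (law w X U (U o)) =
        ∑ o, w o * EL (conv (law w X U (U o)) (law w X U (U o))) -
          ∑ o, w o * EL (law w X U (U o)) := by
      rw [← Finset.sum_sub_distrib]
      exact Finset.sum_congr rfl fun o _ => by unfold dd; ring
    rw [this, ← e1, ← e3]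
    linarith
  have s2 : ∑ o, w o * dR p (law w X U (U o)) ≤ c₀ + K * t ^ 2 := by
    have : ∑ o, w o * dR p (law w X U (U o)) =
        ∑ o, w o * EL (conv p (law w X U (U o))) - (∑ o, w o) * (EL p / 2) -
          (∑ o, w o * EL (law w X U (U o))) / 2 := by
      rw [Finset.sum_mul, Finset.sum_div, ← Finset.sum_sub_distrib, ← Finset.sum_sub_distrib]
      exact Finset.sum_congr rfl fun o _ => by unfold dR; ring
    rw [this, ← e2, ← e3, hw.sum_one]
    linarith
  obtain ⟨o, ho, a1, a2⟩ := select hw (fun o => dd (law w X U (U o)))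
    (fun o => dR p (law w X U (U o))) (fun o ho => dd_nonneg' (hlaw o ho))
    (fun o ho => dR_nonneg hp (hlaw o ho)) ht0 s1 s2
  have hc : c₀ ≤ |c₀| := le_abs_self _
  have ht3 : K * t ^ 2 ≤ K * t := by
    refine mul_le_mul_of_nonneg_left ?_ hK
    nlinarith
  have ht4 : K * t ≤ K := by
    calc K * t ≤ K * 1 := mul_le_mul_of_nonneg_left ht1 hK
      _ = K := mul_one K
  refine ⟨law w X U (U o), hlaw o ho, ?_, ?_⟩
  · have b1 : c₀ + K * t ^ 2 + K * t ≤ M := by
      rw [hM]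
      linarith
    calc dd (law w X U (U o)) ≤ t * (c₀ + K * t ^ 2 + K * t) := a1
      _ ≤ t * M := mul_le_mul_of_nonneg_left b1 ht0.le
      _ ≤ ε := ht2
  · have b2 : K * t ^ 2 + K * t ≤ t * M := by
      have h0 : 0 ≤ |c₀| := abs_nonneg _
      rw [hM]
      nlinarith
    have a3 : dR p (law w X U (U o)) ≤ c₀ + K * t ^ 2 + K * t := a2
    unfold dR at a3
    linarith

theorem log_index_bot_sub (H : AddSubgroup G) :
    Real.log ((⊥ : AddSubgroup G).index) - Real.log H.index = Real.log (Nat.card H) := by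
  have h1 := AddSubgroup.card_mul_index H
  have h2 : (Nat.card H : ℝ) ≠ 0 := by exact_mod_cast Nat.card_pos.ne'
  have h3 : (H.index : ℝ) ≠ 0 := by
    exact_mod_cast AddSubgroup.index_ne_zero_of_finite (H := H)
  rw [AddSubgroup.index_bot, ← h1, Nat.cast_mul, Real.log_mul h2 h3]
  ring

theorem DL_bot (p : G → ℝ) :
    DL p ⊥ = Real.log ((⊥ : AddSubgroup G).index) - EL p := by
  unfold DL EL
  congr 1
  refine Ent_congr fun o o' => ?_
  rw [Fam.mk_eq_iff, AddSubgroup.mem_bot, sub_eq_zero]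

/-- the limit: the subgroup from a sequence of laws -/
theorem pfr_of_laws {p : G → ℝ} (hp : IsPr p) {c₀ : ℝ}
    (h : ∀ ε : ℝ, 0 < ε → ∃ q : G → ℝ, IsPr q ∧ dd q ≤ ε ∧
      EL (conv p q) - EL p / 2 - EL q / 2 ≤ c₀ + ε) :
    ∃ H : AddSubgroup G, Real.log H.index - DL p H ≤ 2 * c₀ ∧ DL p ⊥ - DL p H ≤ 2 * c₀ := by
  have h' : ∀ ε : ℝ, 0 < ε → ∃ q : G → ℝ, IsPr q ∧
      Ent (prodW q q) (fun z => z.1 + z.2) - Ent q (fun a => a) ≤ ε ∧
      Ent (prodW p q) (fun z => z.1 + z.2) - Ent p (fun a => a) / 2 -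
        Ent q (fun a => a) / 2 ≤ c₀ + ε := by
    intro ε hε
    obtain ⟨q, hq, h1, h2⟩ := h ε hε
    refine ⟨q, hq, ?_, ?_⟩
    · unfold dd EL at h1
      rw [Ent_conv] at h1
      exact h1
    · unfold EL at h2
      rw [Ent_conv] at h2
      exact h2
  obtain ⟨H, h1, h2⟩ := Pool.Agent.Helper5.PF.lim_final hp h'
  refine ⟨H, ?_, ?_⟩
  · unfold DL
    linarith
  · rw [DL_bot]
    have h3 := log_index_bot_sub H
    unfold DL EL
    linarith

end Pool.Agent.Helper94.PF
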