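import Pool.Agent.Helper15.BP.Law
import Pool.Agent.Helper97.PF.Bsg

/-!
# Averages over members and the choice of a member

`dR p q = H(X+Y) - H(X)/2 - H(Y)/2` for independent `X`, `Y` with laws `p`, `q`.
The two-trial entropy and the entropy of `x₀ + X` as averages over the conditional laws,
and the selection of a good member.
-/

set_option autoImplicit false

namespace Pool.Agent.Helper94.PF

open Finset Pool.Agent.Helper15.BP Pool.Agent.Helper97.PF

variable {Ω γ : Type*} [Fintype Ω]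

/-- some point of positive mass lies below the average -/
theorem exists_le_avg {w : Ω → ℝ} (hw : IsPr w) (f : Ω → ℝ) :
    ∃ o, 0 < w o ∧ f o ≤ ∑ x, w x * f x := by
  by_contra hcon
  push Not at hcon
  set S := ∑ x, w x * f x with hS
  have h1 : ∃ o, 0 < w o := by
    by_contra h
    push Not at h
    have h2 : ∑ o, w o ≤ 0 := Finset.sum_nonpos fun o _ => h o
    rw [hw.sum_one] at h2
    linarith
  obtain ⟨o, ho⟩ := h1
  have h3 : ∑ x, w x * S < ∑ x, w x * f x := by
    refine Finset.sum_lt_sum (fun x _ => ?_) ⟨o, Finset.mem_univ o, ?_⟩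
    · rcases (hw.nonneg x).eq_or_lt with h0 | h0
      · rw [← h0]; simp
      · exact mul_le_mul_of_nonneg_left (hcon x h0).le h0.le
    · exact mul_lt_mul_of_pos_left (hcon o ho) ho
  rw [← Finset.sum_mul, hw.sum_one, one_mul] at h3
  exact lt_irrefl _ h3

/-- both quantities can be made small at one point -/
theorem select {w : Ω → ℝ} (hw : IsPr w) (a b : Ω → ℝ) (ha : ∀ o, 0 < w o → 0 ≤ a o)
    (hb : ∀ o, 0 < w o → 0 ≤ b o) {δ A B : ℝ} (hδ : 0 < δ)
    (hA : ∑ o, w o * a o ≤ A * δ ^ 2) (hB : ∑ o, w o * b o ≤ B) :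
    ∃ o, 0 < w o ∧ a o ≤ δ * (B + A * δ) ∧ b o ≤ B + A * δ := by
  obtain ⟨o, ho, h1⟩ := exists_le_avg hw (fun x => b x + δ⁻¹ * a x)
  have h2 : ∑ x, w x * (b x + δ⁻¹ * a x) = ∑ x, w x * b x + δ⁻¹ * ∑ x, w x * a x := by
    rw [Finset.mul_sum, ← Finset.sum_add_distrib]
    exact Finset.sum_congr rfl fun x _ => by ring
  rw [h2] at h1
  have h3 : δ⁻¹ * ∑ x, w x * a x ≤ A * δ := by
    have h4 := mul_le_mul_of_nonneg_left hA (inv_pos.2 hδ).le
    have h5 : δ⁻¹ * (A * δ ^ 2) = A * δ := by field_simp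
    linarith
  have h6 : b o + δ⁻¹ * a o ≤ B + A * δ := by linarith
  have h7 : 0 ≤ δ⁻¹ * a o := mul_nonneg (inv_pos.2 hδ).le (ha o ho)
  refine ⟨o, ho, ?_, by linarith⟩
  have h8 : δ⁻¹ * a o ≤ B + A * δ := by linarith [hb o ho]
  have h9 := mul_le_mul_of_nonneg_left h8 hδ.le
  have h10 : δ * (δ⁻¹ * a o) = a o := by field_simp
  linarith

variable {G : Type} [AddCommGroup G] [Fintype G]

omit [AddCommGroup G] [Fintype G] in
/-- the law of a pair of conditionally independent trials is the product law -/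
theorem law_w2 {w : Ω → ℝ} (hw : IsPr w) (X : Ω → G) (U : Ω → γ) (u : γ) (hu : pr w U u ≠ 0) :
    law (w2 w U) (fun p => (X p.1, X p.2)) (fun p => U p.1) u =
      prodW (law w X U u) (law w X U u) := by
  funext z
  unfold law prodW
  have h1 : pr (w2 w U) (fun p => U p.1) u = pr w U u := pr_w2_fst hw U U u
  have h2 : pr (w2 w U) (fun p => ((X p.1, X p.2), U p.1)) (z, u) =
      pr (w2 w U) (fun p => (X p.1, X p.2, U p.1)) (z.1, z.2, u) := by
    unfold pr
    refine Finset.sum_congr rfl fun o _ => ?_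
    by_cases h3 : ((X o.1, X o.2), U o.1) = (z, u)
    · have h4 : (X o.1, X o.2, U o.1) = (z.1, z.2, u) := by
        have e1 : (X o.1, X o.2) = z := congrArg Prod.fst h3
        have e2 : U o.1 = u := congrArg Prod.snd h3
        rw [← e1, e2]
      rw [if_pos h3, if_pos h4]
    · have h4 : (X o.1, X o.2, U o.1) ≠ (z.1, z.2, u) := by
        intro h5
        simp only [Prod.mk.injEq] at h5
        exact h3 (Prod.ext (Prod.ext h5.1 h5.2.1) h5.2.2)
      rw [if_neg h3, if_neg h4]
  rw [h1, h2, pr_w2]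
  field_simp

/-- two trials: conditional entropy of the sum as an average over the conditional laws -/
theorem avg_w2 {w : Ω → ℝ} (hw : IsPr w) (X : Ω → G) (U : Ω → γ) :
    Ent (w2 w U) (fun p => (X p.1 + X p.2, U p.1)) - Ent w U =
      ∑ o, w o * EL (conv (law w X U (U o)) (law w X U (U o))) := by
  have h1 := Ent_fibre (w2_isPr hw U) (fun p : Ω × Ω => (X p.1, X p.2)) (fun p => U p.1)
    (fun z : G × G => z.1 + z.2)
  have h2 : Ent (w2 w U) (fun p => U p.1) = Ent w U := Ent_w2_fst hw U U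
  simp only at h1
  rw [h2] at h1
  rw [h1]
  have h3 : ∀ p, w2 w U p * Ent (law (w2 w U) (fun p => (X p.1, X p.2)) (fun p => U p.1) (U p.1))
      (fun z : G × G => z.1 + z.2) =
      w2 w U p * (fun o => EL (conv (law w X U (U o)) (law w X U (U o)))) p.1 := by
    intro p
    by_cases hp : w2 w U p = 0
    · rw [hp, zero_mul, zero_mul]
    · obtain ⟨-, h4, -⟩ := w2_supp hp
      have h5 : 0 < w p.1 := lt_of_le_of_ne (hw.nonneg _) (Ne.symm h4)
      rw [law_w2 hw X U _ (pr_pos hw U h5).ne']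
      simp only
      unfold EL
      rw [Ent_conv]
  rw [Finset.sum_congr rfl fun p _ => h3 p,
    sum_w2_fst hw U (fun o => EL (conv (law w X U (U o)) (law w X U (U o))))]

omit [AddCommGroup G] in
/-- adding an independent law `p₀`: the law of the pair -/
theorem law_prod {p₀ : G → ℝ} (hp₀ : IsPr p₀) {w : Ω → ℝ} (X : Ω → G) (U : Ω → γ) (u : γ) :
    law (prodW p₀ w) (fun z => (z.1, X z.2)) (fun z => U z.2) u =
      prodW p₀ (law w X U u) := by
  funext z
  unfold law
  rw [pr_snd hp₀]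
  have h2 : pr (prodW p₀ w) (fun z => ((z.1, X z.2), U z.2)) (z, u) =
      pr (prodW p₀ w) (fun t => ((fun x => x) t.1, (fun o => (X o, U o)) t.2))
        (z.1, (z.2, u)) := by
    unfold pr
    refine Finset.sum_congr rfl fun o _ => ?_
    by_cases h3 : ((o.1, X o.2), U o.2) = (z, u)
    · have h4 : ((fun x => x) o.1, (fun o => (X o, U o)) o.2) = (z.1, (z.2, u)) := by
        have e1 := congrArg Prod.fst h3
        have e2 := congrArg Prod.snd h3
        simp only at e1 e2 ⊢
        rw [← e1, e2]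
      rw [if_pos h3, if_pos h4]
    · have h4 : ((fun x => x) o.1, (fun o => (X o, U o)) o.2) ≠ (z.1, (z.2, u)) := by
        intro h5
        simp only [Prod.mk.injEq] at h5
        exact h3 (Prod.ext (Prod.ext h5.1 h5.2.1) h5.2.2)
      rw [if_neg h3, if_neg h4]
  rw [h2, pr_prod p₀ w (fun x => x) (fun o => (X o, U o)) z.1 (z.2, u), pr_id]
  unfold prodW
  rw [mul_div_assoc]

/-- entropy of `x₀ + X` as an average over the conditional laws -/
theorem avg_add {p₀ : G → ℝ} (hp₀ : IsPr p₀) {w : Ω → ℝ} (hw : IsPr w) (X : Ω → G)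
    (U : Ω → γ) :
    Ent (prodW p₀ w) (fun z => (z.1 + X z.2, U z.2)) - Ent w U =
      ∑ o, w o * EL (conv p₀ (law w X U (U o))) := by
  have h1 := Ent_fibre (hp₀.prod hw) (fun z : G × Ω => (z.1, X z.2)) (fun z => U z.2)
    (fun z : G × G => z.1 + z.2)
  have h2 : Ent (prodW p₀ w) (fun z => U z.2) = Ent w U := Ent_snd hp₀ U
  simp only at h1
  rw [h2] at h1
  rw [h1]
  have h3 : ∀ p, prodW p₀ w p * Ent (law (prodW p₀ w) (fun z => (z.1, X z.2))
      (fun z => U z.2) (U p.2)) (fun z : G × G => z.1 + z.2) =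
      prodW p₀ w p * (fun o => EL (conv p₀ (law w X U (U o)))) p.2 := by
    intro p
    rw [law_prod hp₀]
    simp only
    unfold EL
    rw [Ent_conv]
  rw [Finset.sum_congr rfl fun p _ => h3 p,
    sum_prodW_snd hp₀ (fun o => EL (conv p₀ (law w X U (U o))))]

omit [AddCommGroup G] in
/-- conditional entropy as an average -/
theorem avg_self {w : Ω → ℝ} (hw : IsPr w) (X : Ω → G) (U : Ω → γ) :
    Ent w (fun o => (X o, U o)) - Ent w U = ∑ o, w o * EL (law w X U (U o)) := by
  have h1 := Ent_fibre hw X U (fun x : G => x)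
  exact h1

/-- `H(X+Y) ≥ H(Y)` for laws -/
theorem EL_le_conv_right {p q : G → ℝ} (hp : IsPr p) (hq : IsPr q) : EL q ≤ EL (conv p q) := by
  have h1 := Ent_submod (hp.prod hq) (fun t : G × G => t.1 + t.2) (fun t => t.1)
    (fun _ => (0 : ℕ))
  have e1 : Ent (prodW p q) (fun t : G × G => (t.1 + t.2, t.1, (0 : ℕ))) = EL p + EL q := by
    unfold EL
    rw [← Ent_prod hp hq]
    refine Ent_congr fun o o' => ?_
    simp only [Prod.mk.injEq]
    constructor
    · rintro ⟨h3, h4, -⟩
      rw [h4] at h3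
      exact ⟨h4, add_left_cancel h3⟩
    · rintro ⟨h3, h4⟩
      exact ⟨by rw [h3, h4], h3, trivial⟩
  have e2 : Ent (prodW p q) (fun t : G × G => (t.1 + t.2, (0 : ℕ))) = EL (conv p q) := by
    unfold EL
    rw [Ent_conv]
    refine Ent_congr fun o o' => ?_
    simp only [Prod.mk.injEq, and_true]
  have e3 : Ent (prodW p q) (fun t : G × G => (t.1, (0 : ℕ))) = EL p := by
    unfold EL
    rw [← Ent_fst (w := p) (w' := q) hq (fun x => x)]
    refine Ent_congr fun o o' => ?_
    simp only [Prod.mk.injEq, and_true]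
  rw [e1, e2, e3, Ent_const (hp.prod hq)] at h1
  linarith

theorem EL_le_conv_left {p q : G → ℝ} (hp : IsPr p) (hq : IsPr q) : EL p ≤ EL (conv p q) := by
  have h1 := Ent_submod (hp.prod hq) (fun t : G × G => t.1 + t.2) (fun t => t.2)
    (fun _ => (0 : ℕ))
  have e1 : Ent (prodW p q) (fun t : G × G => (t.1 + t.2, t.2, (0 : ℕ))) = EL p + EL q := by
    unfold EL
    rw [← Ent_prod hp hq]
    refine Ent_congr fun o o' => ?_
    simp only [Prod.mk.injEq]
    constructor
    · rintro ⟨h3, h4, -⟩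
      rw [h4] at h3
      exact ⟨add_right_cancel h3, h4⟩
    · rintro ⟨h3, h4⟩
      exact ⟨by rw [h3, h4], h4, trivial⟩
  have e2 : Ent (prodW p q) (fun t : G × G => (t.1 + t.2, (0 : ℕ))) = EL (conv p q) := by
    unfold EL
    rw [Ent_conv]
    refine Ent_congr fun o o' => ?_
    simp only [Prod.mk.injEq, and_true]
  have e3 : Ent (prodW p q) (fun t : G × G => (t.2, (0 : ℕ))) = EL q := by
    unfold EL
    rw [← Ent_snd (w := p) (w' := q) hp (fun x => x)]
    refine Ent_congr fun o o' => ?_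
    simp only [Prod.mk.injEq, and_true]
  rw [e1, e2, e3, Ent_const (hp.prod hq)] at h1
  linarith

/-- `H(X+Y) - H(X)/2 - H(Y)/2` -/
noncomputable def dR (p q : G → ℝ) : ℝ := EL (conv p q) - EL p / 2 - EL q / 2

theorem dR_nonneg {p q : G → ℝ} (hp : IsPr p) (hq : IsPr q) : 0 ≤ dR p q := by
  unfold dR
  linarith [EL_le_conv_left hp hq, EL_le_conv_right hp hq]

theorem dR_self (p : G → ℝ) : dR p p = dd p := by
  unfold dR dd
  ring

theorem dd_nonneg' {p : G → ℝ} (hp : IsPr p) : 0 ≤ dd p := by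
  rw [← dR_self]
  exact dR_nonneg hp hp

end Pool.Agent.Helper94.PF
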